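import Pool.Agent.Helper27.EX.IDefs
import Pool.Agent.Helper62.EX.TB

/-!
# MP_2857a5_co : placing vertices on segments (module SA)
-/

set_option autoImplicit false

open Finset
open scoped Classical

namespace OT

noncomputable section

variable {n : ℕ}

theorem sa_arc_asymm {T : PTree n} {u v : Fin n} (h : T.Arc u v) : ¬ T.Arc v u := by
  intro h'
  rcases h with ⟨h0, h1, h2⟩ | ⟨h0, h1, h2⟩ <;> rcases h' with ⟨k0, k1, k2⟩ | ⟨k0, k1, k2⟩
  · have e1 := T.lt v h0
    have e2 := T.lt u k0
    rw [h1] at e1
    rw [k1] at e2
    exact absurd e1 (not_lt.2 e2.le)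
  · rw [h2] at k2
    exact absurd k2 (by simp)
  · rw [h2] at k2
    exact absurd k2 (by simp)
  · have e1 := T.lt u h0
    have e2 := T.lt v k0
    rw [h1] at e1
    rw [k1] at e2
    exact absurd e1 (not_lt.2 e2.le)

theorem sa_arc_nb {T : PTree n} {u v : Fin n} (h : T.Arc u v) : T.Nb u v := by
  rcases h with ⟨h0, h1, _⟩ | ⟨h0, h1, _⟩
  · exact Or.inl ⟨h0, h1⟩
  · exact Or.inr ⟨h0, h1⟩

section segs

variable {T : PTree n} {pos : Fin n → Bool} {Bad A : Finset (Fin n)} {seg : Fin n → ℕ → Fin n}

theorem sa_ne (hseg : Segs T pos Bad A seg) {a a' : Fin n} (ha : a ∈ A) (ha' : a' ∈ A)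
    (hne : a ≠ a') {j j' : ℕ} (hj : j ≤ 8) (hj' : j' ≤ 8) : seg a j ≠ seg a' j' := by
  intro h
  apply hseg.sep a ha a' ha' hne j j' hj hj'
  rw [← h]
  exact PTree.self_mem_ball T 3 _

theorem sa_nb (hseg : Segs T pos Bad A seg) {a : Fin n} (ha : a ∈ A) {j : ℕ} (h1 : 1 ≤ j)
    (h7 : j ≤ 7) {y : Fin n} (hy : T.Nb (seg a j) y) : y = seg a (j - 1) ∨ y = seg a (j + 1) := by
  obtain ⟨i, rfl⟩ : ∃ i, j = i + 1 := ⟨j - 1, by omega⟩
  exact hseg.deg a ha i (by omega) y hy

theorem sa_out (hseg : Segs T pos Bad A seg) {a : Fin n} (ha : a ∈ A) {j : ℕ} (h1 : 1 ≤ j)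
    (h7 : j ≤ 7) {y : Fin n} (hy : T.Arc (seg a j) y) : y = seg a (j + 1) := by
  rcases sa_nb hseg ha h1 h7 (sa_arc_nb hy) with h | h
  · exfalso
    have := hseg.arc a ha (j - 1) (by omega)
    rw [show j - 1 + 1 = j by omega, ← h] at this
    exact sa_arc_asymm this hy
  · exact h

theorem sa_in (hseg : Segs T pos Bad A seg) {a : Fin n} (ha : a ∈ A) {j : ℕ} (h1 : 1 ≤ j)
    (h7 : j ≤ 7) {y : Fin n} (hy : T.Arc y (seg a j)) : y = seg a (j - 1) := by
  rcases sa_nb hseg ha h1 h7 (sa_arc_nb hy).symm with h | h
  · exact h
  · exfalso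
    have := hseg.arc a ha j (by omega)
    rw [← h] at this
    exact sa_arc_asymm this hy

end segs

/-- The step: one more segment. -/
theorem sa_step (T : PTree n) {V : Type} [Fintype V] (side pos : Fin n → Bool)
    (Bad A : Finset (Fin n)) (seg : Fin n → ℕ → Fin n) (hseg : Segs T pos Bad A seg)
    (hside : ∀ a ∈ A, ∀ j, j ≤ 8 → side (seg a j) = side (seg a 0))
    (ut : V → Bool → Bool) (A' : Finset (Fin n)) (hA' : A' ⊆ A) (a : Fin n) (ha : a ∈ A)
    (haA' : a ∉ A') (H : Finset V) (d : ℤ) (Hp : Finset (Fin n)) (φ : Fin n → V)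
    (side' : Fin n → Bool) (hP : Placed T side A' seg H ut d Hp φ side')
    (J F : Finset ℕ) (g : ℕ → V) (hJ : ∀ j ∈ J, 1 ≤ j ∧ j ≤ 7) (hF : ∀ j ∈ F, 1 ≤ j ∧ j ≤ 7)
    (hJJ : ∀ j ∈ J, ∀ j' ∈ J, j ≠ j' → j + 4 ≤ j' ∨ j' + 4 ≤ j)
    (hFF : ∀ j, j ∉ J → j + 1 ∉ J → (j ∈ F ↔ j + 1 ∈ F))
    (hnb : ∀ j ∈ J, (if j - 1 ∈ F then false else side (seg a 0)) = ut (g j) false ∧
      (if j + 1 ∈ F then false else side (seg a 0)) = ut (g j) true)
    (hg : Set.InjOn g J) (hgH : ∀ j ∈ J, g j ∉ H)
    (hcase : side (seg a 0) = true ∨ F = ∅)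
    (H₂ : Finset V) (hH₂ : H₂ = H ∪ J.image g) (d₂ : ℤ) (A₂ : Finset (Fin n))
    (hA₂ : A₂ = insert a A')
    (hcount : ((H₂.filter fun u => ut u false = true ∧ ut u true = true).card : ℤ) +
      6 * (H₂.filter fun u => ut u false = true ∧ ut u true = false).card + d₂ =
      (H.filter fun u => ut u false = true ∧ ut u true = true).card +
      6 * (H.filter fun u => ut u false = true ∧ ut u true = false).card + d +
      (if side (seg a 0) = true then ((J ∪ F).card : ℤ) else 0)) :
    ∃ (Hp₂ : Finset (Fin n)) (φ₂ : Fin n → V) (side₂ : Fin n → Bool),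
      Placed T side A₂ seg H₂ ut d₂ Hp₂ φ₂ side₂ := by
  subst hH₂ hA₂
  have hinj : ∀ j j', j ≤ 8 → j' ≤ 8 → seg a j = seg a j' → j = j' := hseg.inj a ha
  -- vertices of the new segment are new
  have hnew : ∀ j, j ≤ 8 → ∀ a' ∈ A', ∀ j', j' ≤ 8 → seg a j ≠ seg a' j' := by
    intro j hj a' ha' j' hj'
    exact sa_ne hseg ha (hA' ha') (fun h => haA' (h ▸ ha')) hj hj'
  have hHp : ∀ j, j ≤ 8 → seg a j ∉ Hp := by
    intro j hj hm
    obtain ⟨a', ha', j', h1, h7, he⟩ := hP.mem _ hm
    exact hnew j hj a' ha' j' (by omega) he
  have hs' : ∀ j, j ≤ 8 → side' (seg a j) = side (seg a 0) := by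
    intro j hj
    rw [hP.off (seg a j) (fun a' ha' j' h1 h7 => hnew j hj a' ha' j' (by omega))]
    exact hside a ha j hj
  let φ₂ : Fin n → V := fun x => if h : ∃ j, j ∈ J ∧ seg a j = x then g (Classical.choose h) else φ x
  have hφ1 : ∀ j ∈ J, φ₂ (seg a j) = g j := by
    intro j hj
    have h : ∃ i, i ∈ J ∧ seg a i = seg a j := ⟨j, hj, rfl⟩
    have h2 : φ₂ (seg a j) = g (Classical.choose h) := dif_pos h
    rw [h2]
    have hc := Classical.choose_spec h
    congr 1
    exact hinj _ _ (by have := (hJ _ hc.1).2; omega) (by have := (hJ _ hj).2; omega) hc.2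
  have hφ2 : ∀ x, x ∉ J.image (seg a) → φ₂ x = φ x := by
    intro x hx
    refine dif_neg ?_
    rintro ⟨j, hj, rfl⟩
    exact hx (mem_image_of_mem _ hj)
  let side₂ : Fin n → Bool := fun x => if x ∈ F.image (seg a) then false else side' x
  have hσ1 : ∀ j, j ≤ 8 → side₂ (seg a j) = if j ∈ F then false else side (seg a 0) := by
    intro j hj
    show (if seg a j ∈ F.image (seg a) then false else side' (seg a j)) = _
    rw [hs' j hj]
    by_cases h : j ∈ F
    · rw [if_pos h, if_pos (mem_image_of_mem _ h)]
    · rw [if_neg h, if_neg]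
      intro hm
      obtain ⟨i, hi, he⟩ := mem_image.1 hm
      rw [hinj i j (by have := (hF _ hi).2; omega) hj he] at hi
      exact h hi
  have hσ2 : ∀ x, x ∉ F.image (seg a) → side₂ x = side' x := fun x hx => if_neg hx
  have hσ3 : ∀ x, x ∈ F.image (seg a) → side₂ x = false := fun x hx => if_pos hx
  have hHpJ : ∀ x ∈ Hp, x ∉ J.image (seg a) := by
    intro x hx hm
    obtain ⟨i, hi, rfl⟩ := mem_image.1 hm
    exact hHp i (by have := (hJ _ hi).2; omega) hx
  refine ⟨Hp ∪ J.image (seg a), φ₂, side₂, ?_, ?_, ?_, ?_, ?_, ?_, ?_, ?_⟩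
  · -- inj
    intro x hx y hy hxy
    rw [mem_coe, mem_union] at hx hy
    rcases hx with hx | hx <;> rcases hy with hy | hy
    · rw [hφ2 x (hHpJ x hx), hφ2 y (hHpJ y hy)] at hxy
      exact hP.inj hx hy hxy
    · exfalso
      obtain ⟨j, hj, rfl⟩ := mem_image.1 hy
      rw [hφ2 x (hHpJ x hx), hφ1 j hj] at hxy
      apply hgH j hj
      rw [← hxy, ← hP.image]
      exact mem_image_of_mem _ hx
    · exfalso
      obtain ⟨j, hj, rfl⟩ := mem_image.1 hx
      rw [hφ2 y (hHpJ y hy), hφ1 j hj] at hxy
      apply hgH j hj
      rw [hxy, ← hP.image]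
      exact mem_image_of_mem _ hy
    · obtain ⟨j, hj, rfl⟩ := mem_image.1 hx
      obtain ⟨j', hj', rfl⟩ := mem_image.1 hy
      rw [hφ1 j hj, hφ1 j' hj'] at hxy
      rw [hg hj hj' hxy]
  · -- image
    rw [image_union]
    congr 1
    · rw [← hP.image]
      apply image_congr
      intro x hx
      exact hφ2 x (hHpJ x hx)
    · rw [image_image]
      apply image_congr
      intro j hj
      exact hφ1 j hj
  · -- mem
    intro x hx
    rw [mem_union] at hx
    rcases hx with hx | hx
    · obtain ⟨a', ha', j, h1, h7, he⟩ := hP.mem x hx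
      exact ⟨a', mem_insert_of_mem ha', j, h1, h7, he⟩
    · obtain ⟨j, hj, rfl⟩ := mem_image.1 hx
      exact ⟨a, mem_insert_self _ _, j, (hJ j hj).1, (hJ j hj).2, rfl⟩
  · -- off
    intro x hx
    rw [hσ2 x ?_]
    · exact hP.off x (fun a' ha' j h1 h7 => hx a' (mem_insert_of_mem ha') j h1 h7)
    · intro hm
      obtain ⟨j, hj, rfl⟩ := mem_image.1 hm
      exact hx a (mem_insert_self _ _) j (hF j hj).1 (hF j hj).2 rfl
  · -- arc
    intro x y hxy hx hy hsd
    rw [mem_union, not_or] at hx hy
    have hcol : ∀ j, seg a j ∉ J.image (seg a) → j ∉ J := fun j h hj => h (mem_image_of_mem _ hj)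
    by_cases hxF : x ∈ F.image (seg a)
    · obtain ⟨j, hj, rfl⟩ := mem_image.1 hxF
      have hy' := sa_out hseg ha (hF j hj).1 (hF j hj).2 hxy
      subst hy'
      have := (hFF j (hcol j hx.2) (hcol (j + 1) hy.2)).1 hj
      rw [hσ3 _ hxF, hσ3 _ (mem_image_of_mem _ this)]
    · by_cases hyF : y ∈ F.image (seg a)
      · exfalso
        obtain ⟨j, hj, rfl⟩ := mem_image.1 hyF
        have hx' := sa_in hseg ha (hF j hj).1 (hF j hj).2 hxy
        subst hx'
        have h1 := (hF j hj).1
        have hk := hFF (j - 1) (hcol _ hx.2)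
        rw [show j - 1 + 1 = j by omega] at hk
        exact hxF (mem_image_of_mem _ ((hk (hcol j hy.2)).2 hj))
      · rw [hσ2 x hxF, hσ2 y hyF]
        exact hP.arc x y hxy hx.1 hy.1 hsd
  · -- nb
    intro x hx s y hxy
    rw [mem_union] at hx
    rcases hx with hx | hx
    · rw [hφ2 x (hHpJ x hx), hσ2 y ?_]
      · exact hP.nb x hx s y hxy
      · intro hm
        obtain ⟨j, hj, rfl⟩ := mem_image.1 hm
        have hnb' : T.Nb (seg a j) x := by
          cases s
          · exact sa_arc_nb hxy
          · exact (sa_arc_nb hxy).symm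
        have hj' := hF j hj
        rcases sa_nb hseg ha hj'.1 hj'.2 hnb' with h | h
        · exact hHp (j - 1) (by omega) (h ▸ hx)
        · exact hHp (j + 1) (by omega) (h ▸ hx)
    · obtain ⟨j, hj, rfl⟩ := mem_image.1 hx
      have hj' := hJ j hj
      rw [hφ1 j hj]
      cases s
      · have hy := sa_in hseg ha hj'.1 hj'.2 (y := y) hxy
        subst hy
        rw [hσ1 (j - 1) (by omega)]
        exact (hnb j hj).1
      · have hy := sa_out hseg ha hj'.1 hj'.2 (y := y) hxy
        subst hy
        rw [hσ1 (j + 1) (by omega)]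
        exact (hnb j hj).2
  · -- sep
    intro x hx y hy hxy
    rw [mem_union] at hx hy
    rcases hx with hx | hx <;> rcases hy with hy | hy
    · exact hP.sep x hx y hy hxy
    · obtain ⟨j, hj, rfl⟩ := mem_image.1 hy
      obtain ⟨a', ha', j', h1, h7, rfl⟩ := hP.mem x hx
      exact hseg.sep a' (hA' ha') a ha (fun h => haA' (h ▸ ha')) j' j (by omega)
        (by have := (hJ j hj).2; omega)
    · obtain ⟨j, hj, rfl⟩ := mem_image.1 hx
      obtain ⟨a', ha', j', h1, h7, rfl⟩ := hP.mem y hy
      exact hseg.sep a ha a' (hA' ha') (fun h => haA' (h ▸ ha')) j j'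
        (by have := (hJ j hj).2; omega) (by omega)
    · obtain ⟨j, hj, rfl⟩ := mem_image.1 hx
      obtain ⟨j', hj', rfl⟩ := mem_image.1 hy
      have hne : j ≠ j' := fun h => hxy (by rw [h])
      have b1 := (hJ j hj).2
      have b2 := (hJ j' hj').2
      rcases hJJ j hj j' hj' hne with h | h
      · exact (hseg.dist a ha j j' h (by omega)).1
      · exact (hseg.dist a ha j' j h (by omega)).2
  · -- count
    have hcnt := hP.count
    have key : ((univ.filter fun y => y ∉ Hp ∪ J.image (seg a) ∧ side₂ y = true).card : ℤ) +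
        (if side (seg a 0) = true then ((J ∪ F).card : ℤ) else 0) =
        (univ.filter fun y => y ∉ Hp ∧ side' y = true).card := by
      by_cases hc : side (seg a 0) = true
      · rw [if_pos hc]
        have hcard : ((J ∪ F).image (seg a)).card = (J ∪ F).card := by
          apply card_image_of_injOn
          intro j hj j' hj' he
          have b1 : j ≤ 8 := by
            rcases mem_union.1 hj with h | h
            · have := (hJ j h).2; omega
            · have := (hF j h).2; omega
          have b2 : j' ≤ 8 := by
            rcases mem_union.1 hj' with h | h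
            · have := (hJ j' h).2; omega
            · have := (hF j' h).2; omega
          exact hinj j j' b1 b2 he
        have hsub : (J ∪ F).image (seg a) ⊆ univ.filter fun y => y ∉ Hp ∧ side' y = true := by
          intro x hx
          obtain ⟨j, hj, rfl⟩ := mem_image.1 hx
          have b1 : j ≤ 8 := by
            rcases mem_union.1 hj with h | h
            · have := (hJ j h).2; omega
            · have := (hF j h).2; omega
          rw [mem_filter]
          refine ⟨mem_univ _, hHp j b1, ?_⟩
          rw [hs' j b1, hc]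
        have heq : (univ.filter fun y => y ∉ Hp ∪ J.image (seg a) ∧ side₂ y = true) =
            (univ.filter fun y => y ∉ Hp ∧ side' y = true) \ (J ∪ F).image (seg a) := by
          ext x
          rw [mem_sdiff, mem_filter, mem_filter, image_union, mem_union, mem_union]
          constructor
          · rintro ⟨-, h1, h2⟩
            push Not at h1
            have h3 : x ∉ F.image (seg a) := by
              intro h
              rw [hσ3 x h] at h2
              exact absurd h2 (by simp)
            rw [hσ2 x h3] at h2
            exact ⟨⟨mem_univ _, h1.1, h2⟩, by rintro (h | h); exacts [h1.2 h, h3 h]⟩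
          · rintro ⟨⟨-, h1, h2⟩, h3⟩
            push Not at h3
            refine ⟨mem_univ _, ?_, ?_⟩
            · rintro (h | h)
              · exact h1 h
              · exact h3.1 h
            · rw [hσ2 x h3.2]
              exact h2
        rw [heq, card_sdiff_of_subset hsub, hcard]
        have := card_le_card hsub
        rw [hcard] at this
        push_cast [Nat.cast_sub this]
        ring
      · rw [if_neg hc, add_zero]
        have hF0 : F = ∅ := hcase.resolve_left hc
        congr 2
        ext x
        rw [mem_filter, mem_filter, mem_union]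
        rw [hσ2 x (by rw [hF0]; simp)]
        constructor
        · rintro ⟨h0, h1, h2⟩
          exact ⟨h0, fun h => h1 (Or.inl h), h2⟩
        · rintro ⟨h0, h1, h2⟩
          refine ⟨h0, ?_, h2⟩
          rintro (h | h)
          · exact h1 h
          · obtain ⟨j, hj, rfl⟩ := mem_image.1 h
            rw [hs' j (by have := (hJ j hj).2; omega)] at h2
            exact hc h2
    linarith [key, hcnt, hcount]

theorem sa_main (T : PTree n) {V : Type} [Fintype V] [Nonempty V] (side pos : Fin n → Bool)
    (Bad A : Finset (Fin n)) (seg : Fin n → ℕ → Fin n) (hseg : Segs T pos Bad A seg)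
    (hside : ∀ a ∈ A, ∀ j, j ≤ 8 → side (seg a j) = side (seg a 0)) (ut : V → Bool → Bool)
    (m : ℕ) : ∀ (H : Finset V), H.card ≤ m → ∀ A' ⊆ A, ∀ d : ℤ,
    (H.filter fun u => ut u false = true ∧ ut u true = false).card =
      (H.filter fun u => ut u false = false ∧ ut u true = true).card →
    |d| ≤ (H.filter fun u => ut u false = true ∧ ut u true = false).card →
    (∀ k, H.card ≤ (A'.filter fun a => side (seg a 0) = k).card) →
    ∃ (Hp : Finset (Fin n)) (φ : Fin n → V) (side' : Fin n → Bool),
      Placed T side A' seg H ut d Hp φ side' := by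
  induction m with
  | zero =>
    intro H hH A' hA' d hbal hd hA
    have hH0 : H = ∅ := card_eq_zero.1 (by omega)
    subst hH0
    have hd0 : d = 0 := by
      simpa using hd
    subst hd0
    refine ⟨∅, fun _ => Classical.arbitrary V, side, ?_, ?_, ?_, ?_, ?_, ?_, ?_, ?_⟩
    · simp
    · simp
    · simp
    · intros; rfl
    · intros; assumption
    · simp
    · simp
    · simp
  | succ m ih =>
    intro H hH A' hA' d hbal hd hA
    -- a helper to choose a segment
    have hex : ∀ k, 0 < H.card → ∃ a ∈ A', side (seg a 0) = k := by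
      intro k hk
      have : 0 < (A'.filter fun a => side (seg a 0) = k).card := lt_of_lt_of_le hk (hA k)
      obtain ⟨a, ha⟩ := card_pos.1 this
      exact ⟨a, (mem_filter.1 ha).1, (mem_filter.1 ha).2⟩
    have herase : ∀ a ∈ A', ∀ k, (A'.filter fun a => side (seg a 0) = k).card ≤
        ((A'.erase a).filter fun a => side (seg a 0) = k).card + 1 := by
      intro a ha k
      rw [filter_erase]
      have := pred_card_le_card_erase (s := A'.filter fun a => side (seg a 0) = k) (a := a)
      omega
    have hfe : ∀ (H : Finset V) (u : V) (p : V → Prop) [DecidablePred p], u ∈ H → p u →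
        (H.filter p).card = ((H.erase u).filter p).card + 1 := by
      intro H u p _ hu hp
      rw [filter_erase, card_erase_of_mem (mem_filter.2 ⟨hu, hp⟩)]
      have : 0 < (H.filter p).card := card_pos.2 ⟨u, mem_filter.2 ⟨hu, hp⟩⟩
      omega
    have hfe' : ∀ (H : Finset V) (u : V) (p : V → Prop) [DecidablePred p], ¬ p u →
        (H.filter p).card = ((H.erase u).filter p).card := by
      intro H u p _ hp
      rw [filter_erase, erase_eq_of_notMem (fun h => hp (mem_filter.1 h).2)]
    by_cases h11 : ∃ u ∈ H, ut u false = ut u true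
    · -- a single vertex
      obtain ⟨u, hu, huu⟩ := h11
      have hpos : 0 < H.card := card_pos.2 ⟨u, hu⟩
      obtain ⟨a, ha, hak⟩ := hex (ut u false) hpos
      have hce : (H.erase u).card + 1 = H.card := by
        rw [card_erase_of_mem hu]; omega
      have e1 := hfe' H u (fun u => ut u false = true ∧ ut u true = false) (by
        rw [← huu]; rintro ⟨h1, h2⟩; rw [h1] at h2; exact absurd h2 (by simp))
      have e2 := hfe' H u (fun u => ut u false = false ∧ ut u true = true) (by
        rw [← huu]; rintro ⟨h1, h2⟩; rw [h1] at h2; exact absurd h2 (by simp))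
      obtain ⟨Hp, φ, side', hP⟩ := ih (H.erase u) (by omega) (A'.erase a)
        ((erase_subset _ _).trans hA') d (by rw [← e1, ← e2]; exact hbal) (by rw [← e1]; exact hd)
        (by
          intro k
          have := herase a ha k
          have := hA k
          omega)
      refine sa_step T side pos Bad A seg hseg hside ut (A'.erase a)
        ((erase_subset _ _).trans hA') a (hA' ha) (notMem_erase _ _) (H.erase u) d Hp φ side' hP
        {4} ∅ (fun _ => u) ?_ ?_ ?_ ?_ ?_ ?_ ?_ (Or.inr rfl) H ?_ d A' ?_ ?_
      · intro j hj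
        rw [mem_singleton] at hj
        omega
      · simp
      · intro j hj j' hj' hne
        rw [mem_singleton] at hj hj'
        omega
      · simp
      · intro j hj
        simp [hak, huu]
      · simp
      · intro j hj
        exact notMem_erase _ _
      · rw [image_singleton, union_comm, ← insert_eq, insert_erase hu]
      · rw [insert_erase ha]
      · rw [e1]
        by_cases hut : ut u false = true
        · have e3 := hfe H u (fun u => ut u false = true ∧ ut u true = true) hu
            ⟨hut, by rw [← huu]; exact hut⟩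
          rw [e3, if_pos (by rw [hak]; exact hut)]
          simp only [union_empty, card_singleton]
          push_cast
          ring
        · have e3 := hfe' H u (fun u => ut u false = true ∧ ut u true = true)
            (fun h => hut h.1)
          rw [e3, if_neg (by rw [hak]; exact hut)]
          ring
    · push Not at h11
      by_cases hH0 : H = ∅
      · exact ih H (by rw [hH0]; simp) A' hA' d hbal hd hA
      -- a pair
      obtain ⟨w, hw⟩ := nonempty_iff_ne_empty.2 hH0
      have hpos : 0 < H.card := card_pos.2 ⟨w, hw⟩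
      have hp0 : 0 < (H.filter fun u => ut u false = true ∧ ut u true = false).card := by
        by_cases hwt : ut w false = true
        · refine card_pos.2 ⟨w, mem_filter.2 ⟨hw, hwt, ?_⟩⟩
          have := h11 w hw
          rw [hwt] at this
          cases hh : ut w true
          · rfl
          · rw [hh] at this; exact absurd rfl this
        · rw [hbal]
          refine card_pos.2 ⟨w, mem_filter.2 ⟨hw, ?_, ?_⟩⟩
          · simpa using hwt
          · have := h11 w hw
            rw [show ut w false = false by simpa using hwt] at this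
            cases hh : ut w true
            · rw [hh] at this; exact absurd rfl this
            · rfl
      obtain ⟨u, hu⟩ := card_pos.1 hp0
      obtain ⟨u', hu'⟩ := card_pos.1 (hbal ▸ hp0)
      rw [mem_filter] at hu hu'
      have huu' : u' ≠ u := by
        rintro rfl
        have := hu.2.1
        rw [hu'.2.1] at this
        exact absurd this (by simp)
      have hu'e : u' ∈ H.erase u := mem_erase.2 ⟨huu', hu'.1⟩
      obtain ⟨a, ha, hak⟩ := hex true hpos
      have e1 := hfe H u (fun u => ut u false = true ∧ ut u true = false) hu.1 hu.2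
      have e1' := hfe' (H.erase u) u' (fun u => ut u false = true ∧ ut u true = false) (by
        rintro ⟨h1, h2⟩; rw [hu'.2.1] at h1; exact absurd h1 (by simp))
      have e2 := hfe' H u (fun u => ut u false = false ∧ ut u true = true) (by
        rintro ⟨h1, h2⟩; rw [hu.2.1] at h1; exact absurd h1 (by simp))
      have e2' := hfe (H.erase u) u' (fun u => ut u false = false ∧ ut u true = true) hu'e hu'.2
      have e3 := hfe' H u (fun u => ut u false = true ∧ ut u true = true) (by
        rintro ⟨h1, h2⟩; rw [hu.2.2] at h2; exact absurd h2 (by simp))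
      have e3' := hfe' (H.erase u) u' (fun u => ut u false = true ∧ ut u true = true) (by
        rintro ⟨h1, h2⟩; rw [hu'.2.1] at h1; exact absurd h1 (by simp))
      have hce : ((H.erase u).erase u').card + 2 = H.card := by
        have h1 := card_erase_of_mem hu'e
        have h2 := card_erase_of_mem hu.1
        have h3 : 0 < (H.erase u).card := card_pos.2 ⟨u', hu'e⟩
        omega
      -- the shift
      obtain ⟨δ, hδ1, hδ2, hδ3⟩ : ∃ δ : ℤ, -1 ≤ δ ∧ δ ≤ 1 ∧ |d - δ| ≤
          (((H.erase u).erase u').filter fun u => ut u false = true ∧ ut u true = false).card := by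
        rw [e1, e1'] at hd
        push_cast at hd
        rw [abs_le] at hd
        rcases lt_trichotomy d 0 with h | h | h
        · exact ⟨-1, by norm_num, by norm_num, abs_le.2 ⟨by linarith [hd.1], by linarith⟩⟩
        · refine ⟨0, by norm_num, by norm_num, ?_⟩
          rw [h]
          simp
        · exact ⟨1, by norm_num, by norm_num, abs_le.2 ⟨by linarith, by linarith [hd.2]⟩⟩
      obtain ⟨e, he⟩ : ∃ e : ℕ, (e : ℤ) = 6 + δ := ⟨(6 + δ).toNat, by omega⟩
      have he5 : 5 ≤ e := by omega
      have he7 : e ≤ 7 := by omega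
      obtain ⟨Hp, φ, side', hP⟩ := ih ((H.erase u).erase u') (by omega) (A'.erase a)
        ((erase_subset _ _).trans hA') (d - δ) (by omega) hδ3
        (by
          intro k
          have := herase a ha k
          have := hA k
          omega)
      refine sa_step T side pos Bad A seg hseg hside ut (A'.erase a)
        ((erase_subset _ _).trans hA') a (hA' ha) (notMem_erase _ _) _ (d - δ) Hp φ side' hP
        {1, e} (Icc 2 (e - 1)) (fun j => if j = 1 then u else u') ?_ ?_ ?_ ?_ ?_ ?_ ?_
        (Or.inl hak) H ?_ d A' ?_ ?_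
      · intro j hj
        rw [mem_insert, mem_singleton] at hj
        omega
      · intro j hj
        rw [mem_Icc] at hj
        omega
      · intro j hj j' hj' hne
        rw [mem_insert, mem_singleton] at hj hj'
        omega
      · intro j hj hj'
        rw [mem_insert, mem_singleton] at hj hj'
        rw [mem_Icc, mem_Icc]
        omega
      · intro j hj
        rw [mem_insert, mem_singleton] at hj
        rcases hj with rfl | rfl
        · constructor
          · rw [if_neg (by rw [mem_Icc]; omega), hak, if_pos rfl, hu.2.1]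
          · rw [if_pos (by rw [mem_Icc]; omega), if_pos rfl, hu.2.2]
        · constructor
          · rw [if_pos (by rw [mem_Icc]; omega), if_neg (by omega), hu'.2.1]
          · rw [if_neg (by rw [mem_Icc]; omega), hak, if_neg (by omega), hu'.2.2]
      · intro j hj j' hj' h
        rw [mem_coe, mem_insert, mem_singleton] at hj hj'
        dsimp only at h
        rcases hj with rfl | rfl <;> rcases hj' with rfl | rfl
        · rfl
        · rw [if_pos rfl, if_neg (by omega)] at h
          exact absurd h.symm huu'
        · rw [if_pos rfl, if_neg (by omega)] at h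
          exact absurd h huu'
        · rfl
      · intro j hj
        split_ifs
        · intro h
          exact notMem_erase u H (mem_of_mem_erase h)
        · exact notMem_erase _ _
      · ext x
        simp only [image_insert, image_singleton, mem_union, mem_erase, mem_insert, mem_singleton,
          if_true, if_neg (show e ≠ 1 by omega)]
        constructor
        · intro hx
          by_cases h1 : x = u
          · exact Or.inr (Or.inl h1)
          · by_cases h2 : x = u'
            · exact Or.inr (Or.inr h2)
            · exact Or.inl ⟨h2, h1, hx⟩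
        · rintro (⟨_, _, hx⟩ | rfl | rfl)
          · exact hx
          · exact hu.1
          · exact hu'.1
      · rw [insert_erase ha]
      · rw [e1, e1', e3, e3', if_pos hak]
        have hc : (({1, e} : Finset ℕ) ∪ Icc 2 (e - 1)).card = e := by
          have : ({1, e} : Finset ℕ) ∪ Icc 2 (e - 1) = Icc 1 e := by
            ext j
            rw [mem_union, mem_insert, mem_singleton, mem_Icc, mem_Icc]
            omega
          rw [this, Nat.card_Icc]
          omega
        rw [hc, he]
        push_cast
        ring

theorem segAsm {n : ℕ} (T : PTree n) {V : Type} [Fintype V] [Nonempty V]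
    (side pos : Fin n → Bool)
    (Bad A : Finset (Fin n)) (seg : Fin n → ℕ → Fin n) (hseg : Segs T pos Bad A seg)
    (hside : ∀ a ∈ A, ∀ j, j ≤ 8 → side (seg a j) = side (seg a 0))
    (H : Finset V) (ut : V → Bool → Bool) (d : ℤ)
    (hbal : (H.filter fun u => ut u false = true ∧ ut u true = false).card =
      (H.filter fun u => ut u false = false ∧ ut u true = true).card)
    (hd : |d| ≤ (H.filter fun u => ut u false = true ∧ ut u true = false).card)
    (hA : ∀ k, H.card ≤ (A.filter fun a => side (seg a 0) = k).card) :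
    ∃ (Hp : Finset (Fin n)) (φ : Fin n → V) (side' : Fin n → Bool),
      Placed T side A seg H ut d Hp φ side' :=
  sa_main T side pos Bad A seg hseg hside ut H.card H le_rfl A (Subset.refl _) d hbal hd hA

end

end OT
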